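import Mathlib
import Pool.Agent.Lib.TwinAll.S1x82

/-!
MP_c6d112_nt: the fundamental lemma of the sieve (Brun-Hooley weights) with an explicit dependence
of the level on the precision: level `z ^ (s + 8 j)` for precision `1 ± 4 ^ (-j)`.
-/

set_option autoImplicit false

namespace Pool.Agent.Lib.MP_c6d112_nt.DO

open Finset
open Pool.Agent.Lib.MP_369a91_nt (ev Uw Lw PiU PiU_succ es tr es_le bonferroni es_nonneg
  mean_lower sieve_ineq abs_Uw_le abs_Lw_le support_Uw support_Lw ev_Uw_succ ev_zero tr_succ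
  one_sub_ge_exp)

private lemma s1r_a52 {δ ε V : ℝ} (h0 : 0 < δ) (h : 2 * δ ≤ ε) (hV : 0 ≤ V) :
    (1 - ε) * V ≤ (1 - δ) * V :=
  mul_le_mul_of_nonneg_right (by linarith) hV

private lemma s1r_b52 {δ V E : ℝ} (h1 : δ ≤ 1 / 2) (h : V ≤ E) : (1 - δ) * V ≤ E * (1 - δ) := by
  rw [mul_comm E]
  exact mul_le_mul_of_nonneg_left h (by linarith)

private lemma s1r_c52 {δ ε S P V : ℝ} (h1 : P ≤ 1 + 2 * S) (hS : S ≤ δ) (h : 2 * δ ≤ ε)
    (hV : 0 ≤ V) : V * P ≤ (1 + ε) * V := by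
  rw [mul_comm V]
  exact mul_le_mul_of_nonneg_right (by linarith) hV

/-- **Fundamental lemma with rate.** -/
theorem fundamentalR (κ : ℝ) : ∃ R0 t1 : ℕ, 0 < t1 ∧ 2 * κ ≤ 2 ^ 2 ^ t1 ∧
    ∀ j t0 n : ℕ, t1 ≤ t0 → ∀ h : ℕ → ℝ, (∀ q ∈ PP t0 n, 0 ≤ h q) →
      (∀ q ∈ PP t0 n, h q ≤ κ / q) →
      (1 - (1 / 4) ^ j) * ∏ q ∈ PP t0 n, (1 - h q) ≤ ev (LL t0 (R0 + j) n) (PP t0 n) h ∧
      ev (LL t0 (R0 + j) n) (PP t0 n) h ≤ ∏ q ∈ PP t0 n, (1 - h q) ∧
      ∏ q ∈ PP t0 n, (1 - h q) ≤ ev (UU t0 (R0 + j) n) (PP t0 n) h ∧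
      ev (UU t0 (R0 + j) n) (PP t0 n) h ≤ (1 + (1 / 4) ^ j) * ∏ q ∈ PP t0 n, (1 - h q) := by
  classical
  set K : ℝ := max κ 1 with hK
  have hK1 : 1 ≤ K := le_max_right _ _
  have hKκ : κ ≤ K := le_max_left _ _
  set v : ℝ := Real.exp (-(6 * K)) with hv
  have hv0 : 0 < v := Real.exp_pos _
  obtain ⟨R0, hR0⟩ := exists_R (3 * K) v (1 / 2) (by linarith) hv0 (by norm_num)
  obtain ⟨t1, ht1⟩ := exists_nat_ge (2 * K)
  have hbig : ∀ t : ℕ, t < 2 ^ 2 ^ t := fun t =>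
    lt_of_lt_of_le Nat.lt_two_pow_self (Nat.pow_le_pow_right (by norm_num)
      Nat.lt_two_pow_self.le)
  have hbigR : ∀ t : ℕ, t1 ≤ t → 2 * K ≤ ((2 ^ 2 ^ t : ℕ) : ℝ) := by
    intro t ht
    refine ht1.trans ?_
    have : t1 ≤ 2 ^ 2 ^ t := ht.trans (hbig t).le
    exact_mod_cast this
  have ht1pos : 0 < t1 := by
    by_contra hcon
    have : t1 = 0 := by omega
    rw [this] at ht1
    norm_num at ht1
    linarith
  refine ⟨R0, t1, ht1pos, ?_, ?_⟩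
  · have := hbigR t1 le_rfl
    push_cast at this
    linarith
  intro jj t0 n ht0 h h0 h1
  set ε : ℝ := (1 / 4) ^ jj with hεd
  have hε : 0 < ε := by positivity
  have hε1 : ε ≤ 1 := pow_le_one₀ (by norm_num) (by norm_num)
  set δ : ℝ := ε / 2 with hδ
  have hδ0 : 0 < δ := by linarith
  have hδ1 : δ ≤ 1 / 2 := by linarith
  have hδε : 2 * δ ≤ ε := by linarith
  set R : ℕ := R0 + jj with hRd
  have hR : ∀ j : ℕ, (3 * K) ^ (2 * j + 2 * R + 1) / ((2 * j + 2 * R + 1).factorial : ℝ) ≤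
      δ * (1 / 4) ^ j * v := by
    intro j
    have h2 := hR0 (j + jj)
    have e1 : 2 * (j + jj) + 2 * R0 + 1 = 2 * j + 2 * R + 1 := by rw [hRd]; ring
    rw [e1] at h2
    refine h2.trans (le_of_eq ?_)
    rw [hδ, hεd, pow_add]
    ring
  set g : ℕ → ℝ := fun q => if q ∈ PP t0 n then h q else 0 with hg
  have hgv : ∀ w : Finset ℕ → ℝ, ev w (PP t0 n) h = ev w (PP t0 n) g := by
    intro w
    unfold ev
    apply Finset.sum_congr rfl
    intro D hD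
    rw [Finset.mem_powerset] at hD
    congr 1
    apply Finset.prod_congr rfl
    intro q hq
    simp [hg, hD hq]
  have hgp : ∏ q ∈ PP t0 n, (1 - h q) = ∏ q ∈ PP t0 n, (1 - g q) := by
    apply Finset.prod_congr rfl
    intro q hq
    simp [hg, hq]
  have hPPq : ∀ q ∈ PP t0 n, 2 * K ≤ (q : ℝ) := by
    intro q hq
    simp only [PP, Finset.mem_filter, Finset.mem_Ioc] at hq
    refine (hbigR t0 ht0).trans ?_
    exact_mod_cast hq.1.1.le
  have g0 : ∀ q, 0 ≤ g q := by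
    intro q
    simp only [hg]
    split_ifs with hq
    · exact h0 q hq
    · exact le_rfl
  have g1 : ∀ q, g q ≤ K / q := by
    intro q
    simp only [hg]
    split_ifs with hq
    · refine (h1 q hq).trans ?_
      exact div_le_div_of_nonneg_right hKκ (by positivity)
    · positivity
  have ghalf : ∀ q, g q ≤ 1 / 2 := by
    intro q
    by_cases hq : q ∈ PP t0 n
    · refine (g1 q).trans ?_
      have h2 := hPPq q hq
      rw [div_le_iff₀ (by linarith)]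
      linarith
    · simp only [hg, if_neg hq]
      norm_num
  have gle1 : ∀ q, g q ≤ 1 := fun q => (ghalf q).trans (by norm_num)
  have hsum : ∀ i, ∑ q ∈ Bl t0 i, g q ≤ 3 * K := by
    intro i
    calc ∑ q ∈ Bl t0 i, g q ≤ ∑ q ∈ Bl t0 i, K * (1 / (q : ℝ)) := by
          apply Finset.sum_le_sum
          intro q _
          rw [mul_one_div]
          exact g1 q
      _ = K * ∑ q ∈ Bl t0 i, (1 / (q : ℝ)) := by rw [Finset.mul_sum]
      _ ≤ K * 3 := mul_le_mul_of_nonneg_left (sum_Bl_le t0 i (by omega)) (by linarith)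
      _ = 3 * K := by ring
  have hV : ∀ i, v ≤ ∏ q ∈ Bl t0 i, (1 - g q) := by
    intro i
    calc v ≤ Real.exp (∑ q ∈ Bl t0 i, -(2 * g q)) := by
          apply Real.exp_le_exp.2
          rw [Finset.sum_neg_distrib, ← Finset.mul_sum]
          linarith [hsum i]
      _ = ∏ q ∈ Bl t0 i, Real.exp (-(2 * g q)) := Real.exp_sum _ _
      _ ≤ ∏ q ∈ Bl t0 i, (1 - g q) := by
          apply Finset.prod_le_prod
          · intro q _; exact (Real.exp_pos _).le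
          · intro q _
            exact one_sub_ge_exp _ (g0 q) (ghalf q)
  have hes : ∀ i < n, es (Bl t0 i) g (rr R n i + 1) ≤ (δ * (1 / 4) ^ (n - i)) * v := by
    intro i _
    refine (es_le (Bl t0 i) g g0 _).trans ?_
    have e1 : rr R n i + 1 = 2 * (n - i) + 2 * R + 1 := by unfold rr; ring
    rw [e1]
    refine le_trans ?_ (hR (n - i))
    apply div_le_div_of_nonneg_right _ (by positivity)
    exact pow_le_pow_left₀ (Finset.sum_nonneg (fun q _ => g0 q)) (hsum i) _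
  have hev0 : ∀ i, 0 ≤ δ * (1 / 4 : ℝ) ^ (n - i) := fun i => by positivity
  have hsε := sum_quarter n δ hδ0.le
  have hlow := mean_lower (Bl t0) (rr R n) (Bl_disjoint t0) (even_rr R n) g g0 gle1 v hv0 hV n
    (fun i => δ * (1 / 4) ^ (n - i)) hes n le_rfl
  have hup := mean_upper (Bl t0) (rr R n) (Bl_disjoint t0) (even_rr R n) g g0 gle1 v hv0 hV n
    (fun i => δ * (1 / 4) ^ (n - i)) hev0 hes n le_rfl
  have hpw := pointwise t0 R n g (fun q _ => g0 q) (fun q _ => gle1 q)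
  rw [PiU_Bl] at hlow hup
  rw [hgv, hgv, hgp]
  set V := ∏ q ∈ PP t0 n, (1 - g q) with hVdef
  have hV0 : 0 ≤ V := Finset.prod_nonneg (fun q _ => by linarith [gle1 q])
  have hprod := one_add_prod_le (fun i => δ * (1 / 4) ^ (n - i)) hev0 n (hsε.trans hδ1)
  refine ⟨?_, hpw.1, hpw.2, ?_⟩
  · have h2 : (1 - ε) * V ≤ (1 - δ) * V := s1r_a52 hδ0 hδε hV0
    have h3 : (1 - δ) * V ≤ ev (Uw (Bl t0) (rr R n) n) (PP t0 n) g * (1 - δ) :=
      s1r_b52 hδ1 hpw.2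
    have h4 : ev (Uw (Bl t0) (rr R n) n) (PP t0 n) g * (1 - δ) ≤
        ev (Uw (Bl t0) (rr R n) n) (PP t0 n) g *
          (1 - ∑ i ∈ Finset.range n, δ * (1 / 4 : ℝ) ^ (n - i)) := by
      apply mul_le_mul_of_nonneg_left _ (hV0.trans hpw.2)
      exact sub_le_sub_left hsε 1
    exact h2.trans (h3.trans (h4.trans hlow.2))
  · have h2 : V * ∏ i ∈ Finset.range n, (1 + δ * (1 / 4 : ℝ) ^ (n - i)) ≤ (1 + ε) * V :=
      s1r_c52 hprod hsε hδε hV0
    exact hup.trans h2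

end Pool.Agent.Lib.MP_c6d112_nt.DO

namespace Pool.Agent.Lib.TwinAll

open Finset
open Pool.Agent.Lib.MP_369a91_nt (ev)
open Pool.Agent.Lib.MP_c6d112_nt.DO (UU LL fundamentalR pointwise abs_UU abs_LL support_UU
  support_LL)

/-- S1 with rate: Brun-Hooley weights of level `z ^ (s + 8 j)` and precision `1 ± 4 ^ (-j)`. -/
def S1RStmt : Prop :=
  ∀ k : ℕ, ∃ s zs : ℕ, ∀ j z0 : ℕ, zs ≤ z0 → ∀ z : ℕ, z0 ≤ z →
    ∃ U L : Finset ℕ → ℝ, (∀ D, |U D| ≤ 1 ∧ |L D| ≤ 1) ∧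
      (∀ D, D ⊆ PP z0 z → (U D ≠ 0 ∨ L D ≠ 0) → ∏ q ∈ D, q ≤ z ^ (s + 8 * j)) ∧
      (∀ h : ℕ → ℝ, (∀ q, 0 ≤ h q ∧ h q ≤ 1) →
        (∑ D ∈ (PP z0 z).powerset, L D * ∏ q ∈ D, h q) ≤ ∏ q ∈ PP z0 z, (1 - h q) ∧
        ∏ q ∈ PP z0 z, (1 - h q) ≤ ∑ D ∈ (PP z0 z).powerset, U D * ∏ q ∈ D, h q) ∧
      (∀ h : ℕ → ℝ, (∀ q ∈ PP z0 z, 0 ≤ h q ∧ h q ≤ (k : ℝ) / q) →
        (∑ D ∈ (PP z0 z).powerset, U D * ∏ q ∈ D, h q) ≤
          (1 + (1 / 4) ^ j) * ∏ q ∈ PP z0 z, (1 - h q) ∧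
        (1 - (1 / 4) ^ j) * ∏ q ∈ PP z0 z, (1 - h q) ≤
          ∑ D ∈ (PP z0 z).powerset, L D * ∏ q ∈ D, h q)

theorem S1R : S1RStmt := by
  classical
  intro k
  obtain ⟨R0, t1, ht1, hk, hfundR⟩ := fundamentalR (k : ℝ)
  refine ⟨2 * (4 * R0 + 10), 2 ^ 2 ^ t1, fun j z0 hz0 z hz => ?_⟩
  set R : ℕ := R0 + j with hRd
  have hfund := hfundR j
  -- choice of `t0`
  have hbig : ∀ t : ℕ, t < 2 ^ 2 ^ t := fun t =>
    lt_of_lt_of_le Nat.lt_two_pow_self (Nat.pow_le_pow_right (by norm_num)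
      Nat.lt_two_pow_self.le)
  -- the largest `t0` with `2 ^ 2 ^ t0 ≤ z0`
  set t0 := Nat.findGreatest (fun t => 2 ^ 2 ^ t ≤ z0) z0 with ht0
  have ht0z : 2 ^ 2 ^ t0 ≤ z0 := by
    have : t1 ≤ z0 := (hbig t1).le.trans hz0
    exact Nat.findGreatest_spec (P := fun t => 2 ^ 2 ^ t ≤ z0) this hz0
  have ht1t0 : t1 ≤ t0 := Nat.le_findGreatest ((hbig t1).le.trans hz0) hz0
  -- the smallest `n` with `z ≤ 2 ^ 2 ^ (t0 + n)`
  have hex : ∃ n, z ≤ 2 ^ 2 ^ (t0 + n) := by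
    refine ⟨z, ?_⟩
    exact (hbig z).le.trans (Nat.pow_le_pow_right (by norm_num)
      (Nat.pow_le_pow_right (by norm_num) (by omega)))
  set n := Nat.find hex with hn
  have hnz : z ≤ 2 ^ 2 ^ (t0 + n) := Nat.find_spec hex
  have hz2 : 2 ^ 2 ^ (t0 + n) ≤ z ^ 2 := by
    rcases Nat.eq_zero_or_pos n with h0 | hpos
    · rw [h0, Nat.add_zero]
      have h1 : 2 ^ 2 ^ t0 ≤ z := ht0z.trans hz
      calc 2 ^ 2 ^ t0 ≤ z := h1
        _ ≤ z ^ 2 := Nat.le_self_pow (by norm_num) z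
    · have h1 : ¬ z ≤ 2 ^ 2 ^ (t0 + (n - 1)) := Nat.find_min hex (by omega)
      push Not at h1
      have h2 : 2 ^ 2 ^ (t0 + n) = (2 ^ 2 ^ (t0 + (n - 1))) ^ 2 := by
        rw [← pow_mul, ← pow_succ]
        congr 2
        omega
      rw [h2]
      exact Nat.pow_le_pow_left h1.le 2
  have hsub : PP z0 z ⊆ MP_c6d112_nt.DO.PP t0 n := by
    intro q hq
    simp only [PP, MP_c6d112_nt.DO.PP, Finset.mem_filter, Finset.mem_Ioc] at hq ⊢
    exact ⟨⟨by omega, by omega⟩, hq.2⟩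
  refine ⟨UU t0 R n, LL t0 R n, fun D => ⟨abs_UU _ _ _ _, abs_LL _ _ _ _⟩, ?_, ?_, ?_⟩
  · intro D hD hne
    have h1 : ∏ q ∈ D, q ≤ (2 ^ 2 ^ (t0 + n)) ^ (4 * R + 10) := by
      rcases hne with h | h
      · exact support_UU t0 R n D (hD.trans hsub) h
      · exact support_LL t0 R n D (hD.trans hsub) h
    calc ∏ q ∈ D, q ≤ (2 ^ 2 ^ (t0 + n)) ^ (4 * R + 10) := h1
      _ ≤ (z ^ 2) ^ (4 * R + 10) := Nat.pow_le_pow_left hz2 _
      _ = z ^ (2 * (4 * R0 + 10) + 8 * j) := by rw [← pow_mul]; congr 1; rw [hRd]; ring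
  · intro h hh
    have h1 := pointwise t0 R n (fun q => if q ∈ PP z0 z then h q else 0)
      (fun q _ => by
        split_ifs
        · exact (hh q).1
        · exact le_rfl)
      (fun q _ => by
        split_ifs
        · exact (hh q).2
        · exact zero_le_one)
    rw [ev_restrict _ _ _ hsub, ev_restrict _ _ _ hsub, prod_restrict _ _ hsub] at h1
    exact h1
  · intro h hh
    have h1 := hfund t0 n ht1t0 (fun q => if q ∈ PP z0 z then h q else 0)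
      (fun q _ => by
        by_cases hq : q ∈ PP z0 z
        · simp only [if_pos hq]; exact (hh q hq).1
        · simp only [if_neg hq]; exact le_rfl)
      (fun q _ => by
        by_cases hq : q ∈ PP z0 z
        · simp only [if_pos hq]; exact (hh q hq).2
        · simp only [if_neg hq]; positivity)
    rw [ev_restrict _ _ _ hsub, ev_restrict _ _ _ hsub, prod_restrict _ _ hsub] at h1
    exact ⟨h1.2.2.2, h1.1⟩

end Pool.Agent.Lib.TwinAll
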